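import Pool.Agent.Lib.MP_6bc78b_nt.MS.L.Iface

/-! Project MS, Part IIIa, module HTB: main term of `H_TB`. -/

set_option autoImplicit false

open Filter Topology ArithmeticFunction

namespace Pool.Agent.Lib.MP_6bc78b_nt.MS.L.H54

theorem bb_apply (lam T : ℝ) (n : ℕ) : bb lam T n = bbf lam T n := rfl

/-- Size of the prime coefficients. -/
theorem bb_abs {lam T : ℝ} (hl : 0 < lam) (hT : 1 < T) {a : ℕ} (ha : 1 ≤ a) :
    |bb lam T a| ≤ ArithmeticFunction.vonMangoldt a / (lam * Real.log T) := by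
  have hL : 0 < Real.log T := Real.log_pos hT
  have hlL : 0 < lam * Real.log T := mul_pos hl hL
  have hΛ : 0 ≤ ArithmeticFunction.vonMangoldt a := vonMangoldt_nonneg
  rw [bb_apply, bbf]
  split_ifs with h
  · have hlog : Real.log a ≤ lam * Real.log T := by
      have h1 : Real.log a ≤ Real.log (T ^ lam) :=
        Real.log_le_log (by exact_mod_cast ha) h
      rwa [Real.log_rpow (by linarith)] at h1
    have h0 : 0 ≤ Real.log a := Real.log_natCast_nonneg a
    have hx1 : 0 ≤ 1 - Real.log a / (lam * Real.log T) := by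
      rw [sub_nonneg, div_le_one hlL]
      exact hlog
    have hx2 : 1 - Real.log a / (lam * Real.log T) ≤ 1 := by
      have := div_nonneg h0 hlL.le
      linarith
    rw [abs_of_nonneg (div_nonneg (mul_nonneg hΛ hx1) hlL.le)]
    apply div_le_div_of_nonneg_right _ hlL.le
    nlinarith
  · rw [abs_zero]
    exact div_nonneg hΛ hlL.le

theorem sum_log_primeFactors {d : ℕ} (hd : Squarefree d) :
    ∑ p ∈ d.primeFactors, Real.log p = Real.log d := by
  rw [← Real.log_prod (fun p hp => by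
    have := (Nat.prime_of_mem_primeFactors hp).pos
    positivity)]
  congr 1
  have := Nat.prod_primeFactors_of_squarefree hd
  calc ∏ p ∈ d.primeFactors, (p : ℝ) = ((∏ p ∈ d.primeFactors, p : ℕ) : ℝ) := by push_cast; rfl
    _ = d := by rw [this]

/-- Prime powers `a ≤ X` with `minFac a ∣ d`. -/
theorem sum_dvd {d : ℕ} (hd : Squarefree d) (X : ℕ) :
    ∑ a ∈ (Finset.Icc 1 X).filter (fun a => a.minFac ∣ d), ArithmeticFunction.vonMangoldt a ≤
      (Nat.log 2 X : ℝ) * Real.log d := by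
  classical
  set S := ((Finset.Icc 1 X).filter (fun a => a.minFac ∣ d)).filter (fun a => IsPrimePow a) with hS
  have h1 : ∑ a ∈ (Finset.Icc 1 X).filter (fun a => a.minFac ∣ d),
      ArithmeticFunction.vonMangoldt a = ∑ a ∈ S, Real.log (a.minFac) := by
    rw [hS, Finset.sum_filter (p := fun a => IsPrimePow a)]
    refine Finset.sum_congr rfl fun a _ => ?_
    rw [vonMangoldt_apply]
  have hmem : ∀ a ∈ S, 1 ≤ a ∧ a ≤ X ∧ a.minFac ∣ d ∧ IsPrimePow a := by
    intro a ha
    rw [hS, Finset.mem_filter, Finset.mem_filter, Finset.mem_Icc] at ha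
    exact ⟨ha.1.1.1, ha.1.1.2, ha.1.2, ha.2⟩
  have h2 : ∑ a ∈ S, Real.log (a.minFac) =
      ∑ x ∈ S.image (fun a => (a.minFac, a.factorization a.minFac)), Real.log (x.1 : ℕ) := by
    rw [Finset.sum_image]
    intro a ha b hb hab
    have ha' := (hmem a ha).2.2.2.minFac_pow_factorization_eq
    have hb' := (hmem b hb).2.2.2.minFac_pow_factorization_eq
    have e1 : a.minFac = b.minFac := congrArg Prod.fst hab
    have e2 : a.factorization a.minFac = b.factorization b.minFac := congrArg Prod.snd hab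
    rw [← ha', ← hb', e2, e1]
  have hsub : S.image (fun a => (a.minFac, a.factorization a.minFac)) ⊆
      d.primeFactors ×ˢ Finset.Icc 1 (Nat.log 2 X) := by
    intro x hx
    rw [Finset.mem_image] at hx
    obtain ⟨a, ha, rfl⟩ := hx
    obtain ⟨ha1, haX, had, hap⟩ := hmem a ha
    have ha0 : a ≠ 1 := hap.ne_one
    have hp : (a.minFac).Prime := Nat.minFac_prime ha0
    rw [Finset.mem_product]
    refine ⟨?_, ?_⟩
    · exact Nat.mem_primeFactors.mpr ⟨hp, had, hd.ne_zero⟩
    · rw [Finset.mem_Icc]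
      refine ⟨?_, ?_⟩
      · exact hp.factorization_pos_of_dvd (by omega) (Nat.minFac_dvd a)
      · apply Nat.le_log_of_pow_le (by norm_num)
        calc 2 ^ a.factorization a.minFac ≤ a.minFac ^ a.factorization a.minFac :=
              Nat.pow_le_pow_left hp.two_le _
          _ = a := hap.minFac_pow_factorization_eq
          _ ≤ X := haX
  rw [h1, h2]
  calc ∑ x ∈ S.image (fun a => (a.minFac, a.factorization a.minFac)), Real.log (x.1 : ℕ)
      ≤ ∑ x ∈ d.primeFactors ×ˢ Finset.Icc 1 (Nat.log 2 X), Real.log (x.1 : ℕ) :=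
        Finset.sum_le_sum_of_subset_of_nonneg hsub
          (fun x _ _ => Real.log_natCast_nonneg _)
    _ = ∑ p ∈ d.primeFactors, ∑ k ∈ Finset.Icc 1 (Nat.log 2 X), Real.log p := by
        rw [Finset.sum_product]
    _ = (Nat.log 2 X : ℝ) * Real.log d := by
        rw [← sum_log_primeFactors hd, Finset.mul_sum]
        refine Finset.sum_congr rfl fun p _ => ?_
        rw [Finset.sum_const, Nat.card_Icc, nsmul_eq_mul]
        simp

theorem natlog_le {X : ℕ} (hX : 1 ≤ X) : (Nat.log 2 X : ℝ) ≤ 2 * Real.log X := by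
  have h1 : 2 ^ Nat.log 2 X ≤ X := Nat.pow_log_le_self 2 (by omega)
  have h2 : ((2 : ℝ) ^ Nat.log 2 X) ≤ X := by exact_mod_cast h1
  have h3 : Real.log ((2 : ℝ) ^ Nat.log 2 X) ≤ Real.log X := Real.log_le_log (by positivity) h2
  rw [Real.log_pow] at h3
  have h4 : (1 : ℝ) / 2 ≤ Real.log 2 := by
    have := Real.log_two_gt_d9
    linarith
  have h5 : (0 : ℝ) ≤ (Nat.log 2 X : ℝ) := Nat.cast_nonneg _
  nlinarith

theorem HTB_eq (hg : GrwStatement) (h2 : Id2Statement) {lam T ρ : ℝ} (hl : 0 < lam) (hT : 1 < T)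
    (hρ : 0 < ρ) {d : ℕ} (hd : Squarefree d) :
    HTB lam T d ρ = ∑ a ∈ Finset.Icc 1 ⌊T ^ lam⌋₊, bb lam T a *
      (if a.minFac ∣ d then HT T (d / a.minFac) (ρ * a.minFac / a) else HT T d (ρ / a)) := by
  obtain ⟨go, gl, gL, -, gm, -, -⟩ := hg
  unfold HTB
  rw [h2 lam T 0 d ρ (La * lg) hl hT hρ hd (gm _ _ gL gl), h2 lam T 1 d ρ lg hl hT hρ hd gl,
    h2 lam T 2 d ρ one hl hT hρ hd go, Finset.mul_sum, ← Finset.sum_sub_distrib,
    ← Finset.sum_add_distrib]
  refine Finset.sum_congr rfl fun a _ => ?_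
  split_ifs
  · unfold HT
    ring
  · unfold HT
    ring

theorem ETB_eq (κ1 κ0 lam T ρ N : ℝ) (d : ℕ) :
    ρ * ETB κ1 κ0 lam T d N = ∑ a ∈ Finset.Icc 1 ⌊T ^ lam⌋₊, bb lam T a *
      (if a.minFac ∣ d then (ρ * a.minFac / a) * ET κ1 κ0 T (d / a.minFac) (N - Real.log a)
        else (ρ / a) * ET κ1 κ0 T d (N - Real.log a)) := by
  unfold ETB
  rw [Finset.mul_sum]
  refine Finset.sum_congr rfl fun a _ => ?_
  split_ifs
  · ring
  · ring

/-- The error of one term. -/
theorem term_le {κ1 κ0 K T ρ : ℝ} (hK : 0 < K) (hT : 1 < T) (hρ : 0 < ρ)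
    (h : ∀ d : ℕ, Squarefree d → ∀ ρ : ℝ, 0 < ρ →
      |HT T d ρ - ρ * ET κ1 κ0 T d (Real.log d + Real.log ρ)| ≤
        K * Real.log T ^ 2 * (1 + Real.log d) ^ 2 * (ρ * T) ^ (19 / 20 : ℝ))
    {d a : ℕ} (hd : Squarefree d) (ha : 1 ≤ a) :
    |(if a.minFac ∣ d then HT T (d / a.minFac) (ρ * a.minFac / a) else HT T d (ρ / a)) -
      (if a.minFac ∣ d then (ρ * a.minFac / a) * ET κ1 κ0 T (d / a.minFac)
          (Real.log d + Real.log ρ - Real.log a)
        else (ρ / a) * ET κ1 κ0 T d (Real.log d + Real.log ρ - Real.log a))| ≤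
      K * Real.log T ^ 2 * (1 + Real.log d) ^ 2 * (ρ * T) ^ (19 / 20 : ℝ) *
        ((a : ℝ) ^ (-(19 / 20) : ℝ) + if a.minFac ∣ d then 1 else 0) := by
  have hL : 0 < Real.log T := Real.log_pos hT
  have ha0 : (0 : ℝ) < a := by exact_mod_cast ha
  have hT0 : 0 < T := by linarith
  have hd0 : 0 ≤ Real.log d := Real.log_natCast_nonneg d
  have hA : 0 ≤ K * Real.log T ^ 2 * (1 + Real.log d) ^ 2 * (ρ * T) ^ (19 / 20 : ℝ) := by
    positivity
  have hinv : 0 ≤ (a : ℝ) ^ (-(19 / 20) : ℝ) := by positivity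
  split_ifs with hpd
  · -- `p ∣ d`
    have hp1 : 1 ≤ a.minFac := Nat.minFac_pos a
    have hp0 : (0 : ℝ) < a.minFac := by exact_mod_cast hp1
    have hsq : Squarefree (d / a.minFac) := Squarefree.squarefree_of_dvd (Nat.div_dvd_of_dvd hpd) hd
    have hdp : 0 < d / a.minFac := Nat.pos_of_ne_zero hsq.ne_zero
    have hcast : ((d / a.minFac : ℕ) : ℝ) = (d : ℝ) / a.minFac := by
      rw [Nat.cast_div hpd hp0.ne']
    have hdpos : (0 : ℝ) < d := by exact_mod_cast Nat.pos_of_ne_zero hd.ne_zero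
    have hρ' : 0 < ρ * a.minFac / a := by positivity
    have key := h (d / a.minFac) hsq (ρ * a.minFac / a) hρ'
    have hlog : Real.log ((d / a.minFac : ℕ) : ℝ) + Real.log (ρ * a.minFac / a) =
        Real.log d + Real.log ρ - Real.log a := by
      rw [hcast, Real.log_div hdpos.ne' hp0.ne', Real.log_div (by positivity) ha0.ne',
        Real.log_mul hρ.ne' hp0.ne']
      ring
    rw [hlog] at key
    have hlog1 : 0 ≤ Real.log ((d / a.minFac : ℕ) : ℝ) := Real.log_natCast_nonneg _
    have hlog2 : Real.log ((d / a.minFac : ℕ) : ℝ) ≤ Real.log d := by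
      apply Real.log_le_log (by exact_mod_cast hdp)
      exact_mod_cast Nat.div_le_self d a.minFac
    have hple : (a.minFac : ℝ) ≤ a := by exact_mod_cast Nat.minFac_le (by omega)
    have hρT : ρ * a.minFac / a * T ≤ ρ * T := by
      have : ρ * a.minFac / a ≤ ρ := by
        rw [div_le_iff₀ ha0]
        exact mul_le_mul_of_nonneg_left hple hρ.le
      exact mul_le_mul_of_nonneg_right this hT0.le
    have hpow : (ρ * a.minFac / a * T) ^ (19 / 20 : ℝ) ≤ (ρ * T) ^ (19 / 20 : ℝ) :=
      Real.rpow_le_rpow (by positivity) hρT (by norm_num)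
    calc _ ≤ K * Real.log T ^ 2 * (1 + Real.log ((d / a.minFac : ℕ) : ℝ)) ^ 2 *
          (ρ * a.minFac / a * T) ^ (19 / 20 : ℝ) := key
      _ ≤ K * Real.log T ^ 2 * (1 + Real.log d) ^ 2 * (ρ * T) ^ (19 / 20 : ℝ) := by
          gcongr
      _ ≤ _ := by
          nlinarith [mul_nonneg hA hinv]
  · have hρ' : 0 < ρ / a := by positivity
    have hdpos : (0 : ℝ) < d := by exact_mod_cast Nat.pos_of_ne_zero hd.ne_zero
    have key := h d hd (ρ / a) hρ'
    have hlog : Real.log d + Real.log (ρ / a) = Real.log d + Real.log ρ - Real.log a := by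
      rw [Real.log_div hρ.ne' ha0.ne']
      ring
    rw [hlog] at key
    have hpow : (ρ / a * T) ^ (19 / 20 : ℝ) = (ρ * T) ^ (19 / 20 : ℝ) * (a : ℝ) ^ (-(19 / 20) : ℝ) := by
      rw [show ρ / a * T = ρ * T / a by ring, Real.div_rpow (by positivity) ha0.le,
        Real.rpow_neg ha0.le]
      ring
    rw [hpow] at key
    calc _ ≤ _ := key
      _ = _ := by ring

theorem htb (κ1 κ0 : ℝ) (hg : GrwStatement) (hm : MerStatement) (h2 : Id2Statement)
    (h : HtStatement κ1 κ0) : HtbStatement κ1 κ0 := by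
  intro lam hl hl1
  obtain ⟨K, hK, hev⟩ := h
  obtain ⟨C, hC, hm1, -, -⟩ := hm
  refine ⟨K * (3 + C / lam), by positivity, ?_⟩
  filter_upwards [hev, eventually_ge_atTop (Real.exp 1)] with T hH hTe
  intro d hd ρ hρ
  have hT : 1 < T := lt_of_lt_of_le (Real.one_lt_exp_iff.mpr one_pos) hTe
  have hT0 : 0 < T := by linarith
  have hL1 : 1 ≤ Real.log T := by
    rw [← Real.log_exp 1]
    exact Real.log_le_log (Real.exp_pos 1) hTe
  have hL : 0 < Real.log T := by linarith
  have hlL : 0 < lam * Real.log T := mul_pos hl hL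
  have hd0 : 0 ≤ Real.log d := Real.log_natCast_nonneg d
  set A := K * Real.log T ^ 2 * (1 + Real.log d) ^ 2 * (ρ * T) ^ (19 / 20 : ℝ) with hA
  have hA0 : 0 ≤ A := by positivity
  have hX1 : 1 ≤ T ^ lam := Real.one_le_rpow hT.le hl.le
  have hX0 : 0 < T ^ lam := by positivity
  set X := ⌊T ^ lam⌋₊ with hX
  have hXn : 1 ≤ X := Nat.one_le_floor_iff _ |>.mpr hX1
  have hXle : (X : ℝ) ≤ T ^ lam := Nat.floor_le hX0.le
  have hlogX : Real.log X ≤ lam * Real.log T := by
    have h1 : Real.log X ≤ Real.log (T ^ lam) :=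
      Real.log_le_log (by exact_mod_cast hXn) hXle
    rwa [Real.log_rpow hT0] at h1
  rw [HTB_eq hg h2 hl hT hρ hd, ETB_eq, ← Finset.sum_sub_distrib]
  have hb : ∀ a ∈ Finset.Icc 1 X, |bb lam T a *
      (if a.minFac ∣ d then HT T (d / a.minFac) (ρ * a.minFac / a) else HT T d (ρ / a)) -
      bb lam T a * (if a.minFac ∣ d then (ρ * a.minFac / a) * ET κ1 κ0 T (d / a.minFac)
          (Real.log d + Real.log ρ - Real.log a)
        else (ρ / a) * ET κ1 κ0 T d (Real.log d + Real.log ρ - Real.log a))| ≤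
      A * (T ^ (lam / 20) / (lam * Real.log T) * w1 a +
        (1 / (lam * Real.log T)) *
          (if a.minFac ∣ d then ArithmeticFunction.vonMangoldt a else 0)) := by
    intro a ha
    rw [Finset.mem_Icc] at ha
    have ha0 : (0 : ℝ) < a := by exact_mod_cast ha.1
    have hΛ : 0 ≤ ArithmeticFunction.vonMangoldt a := vonMangoldt_nonneg
    rw [← mul_sub, abs_mul]
    have e1 := bb_abs hl hT ha.1
    have e2 := term_le (κ1 := κ1) (κ0 := κ0) hK hT hρ hH hd ha.1
    have hpow : (a : ℝ) ^ (-(19 / 20) : ℝ) ≤ T ^ (lam / 20) / a := by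
      have h1 : (a : ℝ) ^ (-(19 / 20) : ℝ) = (a : ℝ) ^ (1 / 20 : ℝ) / a := by
        rw [show (-(19 / 20) : ℝ) = 1 / 20 - 1 by norm_num, Real.rpow_sub ha0, Real.rpow_one]
      rw [h1]
      apply div_le_div_of_nonneg_right _ ha0.le
      have h2 : (a : ℝ) ≤ T ^ lam := le_trans (by exact_mod_cast ha.2) hXle
      calc (a : ℝ) ^ (1 / 20 : ℝ) ≤ (T ^ lam) ^ (1 / 20 : ℝ) :=
            Real.rpow_le_rpow ha0.le h2 (by norm_num)
        _ = T ^ (lam / 20) := by
            rw [← Real.rpow_mul hT0.le]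
            congr 1
            ring
    have hS0 : 0 ≤ (a : ℝ) ^ (-(19 / 20) : ℝ) + (if a.minFac ∣ d then (1 : ℝ) else 0) := by
      have : 0 ≤ (a : ℝ) ^ (-(19 / 20) : ℝ) := by positivity
      split_ifs <;> linarith
    calc |bb lam T a| * _ ≤ (ArithmeticFunction.vonMangoldt a / (lam * Real.log T)) *
          (A * ((a : ℝ) ^ (-(19 / 20) : ℝ) + if a.minFac ∣ d then 1 else 0)) :=
          mul_le_mul e1 e2 (abs_nonneg _) (by positivity)
      _ = A * (ArithmeticFunction.vonMangoldt a / (lam * Real.log T) *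
          ((a : ℝ) ^ (-(19 / 20) : ℝ) + if a.minFac ∣ d then 1 else 0)) := by ring
      _ ≤ A * (ArithmeticFunction.vonMangoldt a / (lam * Real.log T) *
          (T ^ (lam / 20) / a + if a.minFac ∣ d then 1 else 0)) := by
          apply mul_le_mul_of_nonneg_left _ hA0
          apply mul_le_mul_of_nonneg_left _ (by positivity)
          linarith
      _ = _ := by
          unfold w1
          split_ifs
          · field_simp
          · field_simp
            ring
  refine (Finset.abs_sum_le_sum_abs _ _).trans ((Finset.sum_le_sum hb).trans ?_)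
  rw [← Finset.mul_sum, Finset.sum_add_distrib, ← Finset.mul_sum, ← Finset.mul_sum,
    ← Finset.sum_filter]
  have s1 : ∑ a ∈ Finset.Icc 1 X, w1 a ≤ lam * Real.log T + C := by
    have := hm1 (T ^ lam) hX1
    rw [Real.log_rpow hT0] at this
    have := (abs_le.mp this).2
    linarith
  have s2 : ∑ a ∈ (Finset.Icc 1 X).filter (fun a => a.minFac ∣ d),
      ArithmeticFunction.vonMangoldt a ≤ 2 * (lam * Real.log T) * Real.log d := by
    refine (sum_dvd hd X).trans ?_
    apply mul_le_mul_of_nonneg_right _ hd0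
    have := natlog_le hXn
    linarith
  have hTl : 1 ≤ T ^ (lam / 20) := Real.one_le_rpow hT.le (by positivity)
  have s3 : T ^ (lam / 20) / (lam * Real.log T) * ∑ a ∈ Finset.Icc 1 X, w1 a ≤
      T ^ (lam / 20) * (1 + C / lam) := by
    calc T ^ (lam / 20) / (lam * Real.log T) * ∑ a ∈ Finset.Icc 1 X, w1 a ≤
        T ^ (lam / 20) / (lam * Real.log T) * (lam * Real.log T + C) :=
          mul_le_mul_of_nonneg_left s1 (by positivity)
      _ = T ^ (lam / 20) * (1 + C / lam / Real.log T) := by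
          field_simp
      _ ≤ T ^ (lam / 20) * (1 + C / lam) := by
          apply mul_le_mul_of_nonneg_left _ (by positivity)
          have : C / lam / Real.log T ≤ C / lam := div_le_self (by positivity) hL1
          linarith
  have s4 : 1 / (lam * Real.log T) * ∑ a ∈ (Finset.Icc 1 X).filter (fun a => a.minFac ∣ d),
      ArithmeticFunction.vonMangoldt a ≤ 2 * Real.log d := by
    calc 1 / (lam * Real.log T) * ∑ a ∈ (Finset.Icc 1 X).filter (fun a => a.minFac ∣ d),
        ArithmeticFunction.vonMangoldt a ≤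
        1 / (lam * Real.log T) * (2 * (lam * Real.log T) * Real.log d) :=
          mul_le_mul_of_nonneg_left s2 (by positivity)
      _ = 2 * Real.log d := by
          field_simp
  have hB : 0 ≤ K * (1 + Real.log d) ^ 2 * (ρ * T) ^ (19 / 20 : ℝ) := by positivity
  have hCl : 0 < C / lam := by positivity
  calc A * (T ^ (lam / 20) / (lam * Real.log T) * ∑ a ∈ Finset.Icc 1 X, w1 a +
        1 / (lam * Real.log T) * ∑ a ∈ (Finset.Icc 1 X).filter (fun a => a.minFac ∣ d),
          ArithmeticFunction.vonMangoldt a)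
      ≤ A * (T ^ (lam / 20) * (1 + C / lam) + 2 * Real.log d) :=
        mul_le_mul_of_nonneg_left (add_le_add s3 s4) hA0
    _ ≤ A * (T ^ (lam / 20) * ((3 + C / lam) * (1 + Real.log d))) := by
        apply mul_le_mul_of_nonneg_left _ hA0
        have q1 : 2 * Real.log d ≤ T ^ (lam / 20) * (2 * Real.log d) :=
          le_mul_of_one_le_left (by positivity) hTl
        have q2 : T ^ (lam / 20) * (1 + C / lam) + T ^ (lam / 20) * (2 * Real.log d) ≤
            T ^ (lam / 20) * ((3 + C / lam) * (1 + Real.log d)) := by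
          rw [← mul_add]
          apply mul_le_mul_of_nonneg_left _ (by positivity)
          nlinarith [mul_nonneg hCl.le hd0]
        linarith
    _ = Real.log T ^ 2 * (K * (3 + C / lam) * (1 + Real.log d) ^ 3 *
          (ρ * T) ^ (19 / 20 : ℝ) * T ^ (lam / 20)) := by
        rw [hA]
        ring
    _ ≤ Real.log T ^ 3 * (K * (3 + C / lam) * (1 + Real.log d) ^ 3 *
          (ρ * T) ^ (19 / 20 : ℝ) * T ^ (lam / 20)) := by
        apply mul_le_mul_of_nonneg_right _ (by positivity)
        exact pow_le_pow_right₀ hL1 (by norm_num)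
    _ = _ := by ring

end Pool.Agent.Lib.MP_6bc78b_nt.MS.L.H54
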